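import Mathlib

open Matrix Filter Topology
open scoped ComplexOrder InnerProductSpace MatrixOrder Matrix.Norms.L2Operator OnePoint

namespace Pool.Agent.Results.MP_a15892_an.Counter

/-- the `n × n` Toeplitz matrix with entries `a (i - j)` -/
def T {R : Type} (a : ℤ → R) (n : ℕ) : Matrix (Fin n) (Fin n) R :=
  Matrix.of fun i j => a ((i : ℕ) - (j : ℕ))

/-- positivity of a matrix over a C*-algebra -/
def Pos {R : Type} [Ring R] [StarRing R] {n : ℕ} (Y : Matrix (Fin n) (Fin n) R) : Prop :=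
  ∃ Z : Matrix (Fin n) (Fin n) R, Y = Zᴴ * Z

/-- the positive Toeplitz completion class -/
def PTC (R : Type) [Ring R] [StarRing R] : Prop :=
  ∀ k n : ℕ, 0 < k → k < n → ∀ a : ℤ → R, Pos (T a k) →
    ∃ y : ℤ → R, Pos (T y n) ∧ ∀ l : ℤ, |l| ≤ k - 1 → y l = a l

theorem gramOf {y : ℤ → ℂ} {n : ℕ} (h : (T y n).PosSemidef) :
    ∃ g : ℕ → EuclideanSpace ℂ (Fin n), ∀ i < n, ∀ j < n, ⟪g i, g j⟫_ℂ = y (i - j) := by
  obtain ⟨B, hB⟩ := CStarAlgebra.nonneg_iff_eq_star_mul_self.mp h.nonneg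
  refine ⟨fun i => if h : i < n then WithLp.toLp 2 fun r => B r ⟨i, h⟩ else 0, fun i hi j hj => ?_⟩
  have := congrFun (congrFun hB ⟨i, hi⟩) ⟨j, hj⟩
  simp only [T, of_apply, mul_apply, star_apply] at this
  simp [dif_pos hi, dif_pos hj, this, PiLp.inner_apply, mul_comm]

theorem idx {n : ℕ} {l : ℤ} (h : |l| < n) : ∃ i < n, ∃ j < n, l = (i : ℕ) - (j : ℕ) :=
  ⟨l.toNat, by rw [abs_lt] at h; omega, (-l).toNat, by rw [abs_lt] at h; omega, by omega⟩

theorem herm {y : ℤ → ℂ} {n : ℕ} (h : (T y n).PosSemidef) {l : ℤ} (hl : |l| < n) :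
    star (y (-l)) = y l := by
  obtain ⟨i, hi, j, hj, rfl⟩ := idx hl
  simpa [T] using h.1.apply ⟨i, hi⟩ ⟨j, hj⟩

theorem bnd {y : ℤ → ℂ} {n : ℕ} (h : (T y n).PosSemidef) {l : ℤ} (hl : |l| < n) :
    ‖y l‖ ≤ ‖y 0‖ := by
  obtain ⟨g, hg⟩ := gramOf h
  obtain ⟨i, hi, j, hj, rfl⟩ := idx hl
  have e : ∀ i < n, ‖g i‖ ^ 2 = ‖y 0‖ := fun i hi => by
    have := congrArg norm (hg i hi i hi)
    simpa using this
  have := norm_inner_le_norm (𝕜 := ℂ) (g i) (g j)
  rw [hg i hi j hj] at this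
  nlinarith [e i hi, e j hj, sq_nonneg (‖g i‖ - ‖g j‖)]

theorem ext1 {a : ℤ → ℂ} {m : ℕ} (h : (T a (m + 1)).PosSemidef) :
    ∃ y : ℤ → ℂ, (∀ n, (T y n).PosSemidef) ∧ ∀ l : ℤ, |l| ≤ m → y l = a l := by
  obtain ⟨g, hg⟩ := gramOf h
  set f₁ := Fintype.linearCombination ℂ fun i : Fin m => g i
  set f₂ := Fintype.linearCombination ℂ fun i : Fin m => g (i + 1)
  have h1 : ∀ c, ‖f₂ c‖ = ‖f₁ c‖ := fun c => by
    rw [norm_eq_sqrt_re_inner (𝕜 := ℂ), norm_eq_sqrt_re_inner (𝕜 := ℂ)]
    simp only [f₁, f₂, Fintype.linearCombination_apply, sum_inner, inner_sum, inner_smul_left,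
      inner_smul_right]
    congr 2
    refine Finset.sum_congr rfl fun i _ => congrArg _ (Finset.sum_congr rfl fun j _ => ?_)
    rw [hg _ (by omega) _ (by omega), hg _ (by omega) _ (by omega)]
    push_cast; ring_nf
  have hk : LinearMap.ker f₁ ≤ LinearMap.ker f₂ := fun c hc => by
    rw [LinearMap.mem_ker, ← norm_eq_zero] at hc ⊢
    rw [h1, hc]
  set L0 := ((LinearMap.ker f₁).liftQ f₂ hk).comp f₁.quotKerEquivRange.symm.toLinearMap
  have h2 : ∀ c, L0 ⟨f₁ c, c, rfl⟩ = f₂ c := fun c => by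
    simp [L0, LinearMap.quotKerEquivRange_symm_apply_image]
  let L : LinearMap.range f₁ →ₗᵢ[ℂ] EuclideanSpace ℂ (Fin (m + 1)) :=
    ⟨L0, by rintro ⟨_, c, rfl⟩; rw [h2, h1]; rfl⟩
  set U := L.extend
  have h3 : ∀ i ≤ m, U^[i] (g 0) = g i := fun i hi => by
    induction i with
    | zero => rfl
    | succ i ih =>
      rw [Function.iterate_succ_apply', ih (by omega)]
      have := (L.extend_apply ⟨f₁ (Pi.single ⟨i, hi⟩ 1), _, rfl⟩).trans (h2 _)
      simpa [f₁, f₂] using this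
  have h4 : ∀ t i j, ⟪U^[i + t] (g 0), U^[j + t] (g 0)⟫_ℂ = ⟪U^[i] (g 0), U^[j] (g 0)⟫_ℂ := by
    intro t i j
    induction t with
    | zero => rfl
    | succ t ih =>
      rw [← add_assoc, ← add_assoc, Function.iterate_succ_apply', Function.iterate_succ_apply',
        U.inner_map_map, ih]
  refine ⟨fun l => ⟪U^[l.toNat] (g 0), U^[(-l).toNat] (g 0)⟫_ℂ, fun n => ?_, fun l hl => ?_⟩
  · refine (congrArg PosSemidef ?_).mp (posSemidef_gram ℂ fun i : Fin n => U^[i] (g 0))
    ext i j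
    rw [gram_apply, T, of_apply, ← h4 (min i j) (Int.toNat _)]
    congr 2 <;> omega
  · rw [abs_le] at hl
    beta_reduce
    rw [h3 _ (by omega), h3 _ (by omega), hg _ (by omega) _ (by omega)]
    congr 1; omega

theorem uniq {a y z : ℤ → ℂ} {m n : ℕ} (hmn : m < n) (ha : (T a (m + 1)).PosSemidef)
    (h : ¬ (T a (m + 1)).PosDef) (hy : (T y n).PosSemidef) (hz : (T z n).PosSemidef)
    (ya : ∀ l : ℤ, |l| ≤ m → y l = a l) (za : ∀ l : ℤ, |l| ≤ m → z l = a l) (l : ℤ)
    (hl : |l| < n) : y l = z l := by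
  obtain ⟨v, hv, h0⟩ : ∃ v, v ≠ 0 ∧ star v ⬝ᵥ (T a (m + 1) *ᵥ v) = 0 := by
    by_contra! h'
    exact h (.of_dotProduct_mulVec_pos ha.1 fun v hv =>
      (ha.dotProduct_mulVec_nonneg v).lt_of_ne' (h' v hv))
  obtain ⟨p, hp, hp'⟩ := (wellFounded_lt (α := Fin (m + 1))).has_min {j | v j ≠ 0}
    (Function.ne_iff.1 hv)
  have hle : ∀ j, v j ≠ 0 → (p : ℕ) ≤ j := fun j hj => not_lt.1 (hp' j hj)
  have rel : ∀ y : ℤ → ℂ, (T y n).PosSemidef → (∀ l : ℤ, |l| ≤ m → y l = a l) →
      ∀ i < n, ∑ j, v j * y (i - ((j : ℕ) - p : ℕ)) = 0 := fun y hy ya i hi => by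
    obtain ⟨g, hg⟩ := gramOf hy
    have : ∑ j : Fin (m + 1), v j • g (j - p) = 0 := by
      rw [← inner_self_eq_zero (𝕜 := ℂ), ← h0]
      simp only [sum_inner, inner_sum, inner_smul_left, inner_smul_right, dotProduct, mulVec,
        Finset.mul_sum, T, of_apply, Pi.star_apply]
      rw [Finset.sum_comm]
      refine Finset.sum_congr rfl fun i _ => Finset.sum_congr rfl fun j _ => ?_
      by_cases h1 : v i = 0
      · simp [h1]
      by_cases h2 : v j = 0
      · simp [h2]
      have := hle i h1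
      have := hle j h2
      rw [hg _ (by omega) _ (by omega), ya _ (by rw [abs_le]; omega),
        show (((i : ℕ) - p : ℕ) : ℤ) - ((j : ℕ) - p : ℕ) = (i : ℕ) - (j : ℕ) by omega]
      simp only [RCLike.star_def]; ring
    have h3 := congrArg (fun w => ⟪g i, w⟫_ℂ) this
    simp only [inner_sum, inner_smul_right, inner_zero_right] at h3
    rw [← h3]
    exact Finset.sum_congr rfl fun j _ => by rw [hg _ hi _ (by omega)]
  have key : ∀ i : ℕ, i < n → y i = z i := fun i => by
    induction i using Nat.strong_induction_on with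
    | _ i ih =>
      intro hi
      rcases le_or_gt i m with h1 | h1
      · rw [ya _ (by rw [abs_le]; omega), za _ (by rw [abs_le]; omega)]
      have h2 : ∑ j : Fin (m + 1), v j * (y (i - ((j : ℕ) - p : ℕ)) - z (i - ((j : ℕ) - p : ℕ))) = 0 := by
        simp only [mul_sub, Finset.sum_sub_distrib, rel y hy ya i hi, rel z hz za i hi, sub_self]
      rw [Finset.sum_eq_single p _ (by simp)] at h2
      · simpa [show v p ≠ 0 from hp, sub_eq_zero] using h2
      · intro j _ hj
        by_cases h3 : v j = 0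
        · simp [h3]
        have := hle j h3
        have h4 : (j : ℕ) ≠ p := fun e => hj (Fin.ext e)
        have h5 := ih (i - (j - p)) (by omega) (by omega)
        rw [show (i : ℤ) - ((j : ℕ) - p : ℕ) = (i - (j - p) : ℕ) by omega, h5, sub_self, mul_zero]
  rcases le_total 0 l with h1 | h1
  · obtain ⟨i, rfl⟩ := Int.eq_ofNat_of_zero_le h1
    exact key i (by simpa using hl)
  · obtain ⟨i, rfl⟩ := Int.exists_eq_neg_ofNat h1
    rw [← herm hy hl, ← herm hz hl, neg_neg, key i (by simpa using hl)]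

theorem cT (n : ℕ) : Continuous fun y : ℤ → ℂ => T y n :=
  continuous_matrix fun _ _ => continuous_apply _

theorem select {a : OnePoint ℕ → ℤ → ℂ} (hc : Continuous a) {m n : ℕ} (hmn : m < n)
    (ha : ∀ x, (T (a x) (m + 1)).PosSemidef) : ∃ y : OnePoint ℕ → ℤ → ℂ, Continuous y ∧
      ∀ x, (T (y x) n).PosSemidef ∧ ∀ l : ℤ, |l| ≤ m → y x l = a x l := by
  classical
  have hc' := (OnePoint.continuous_iff_from_nat a).1 hc
  have h1 : ∀ x, ∃ y : ℤ → ℂ, (T y n).PosSemidef ∧ (∀ l : ℤ, |l| ≤ m → y l = a x l) ∧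
      ∀ l : ℤ, ¬ |l| < n → y l = 0 := fun x => by
    obtain ⟨y, h1, h2⟩ := ext1 (ha x)
    refine ⟨fun l => if |l| < n then y l else 0, ?_, fun l hl => ?_, fun l hl => if_neg hl⟩
    · convert h1 n using 1
      ext i j
      exact if_pos (by rw [abs_lt]; omega)
    · exact (if_pos (by omega)).trans (h2 l hl)
  choose e e1 e2 e3 using h1
  by_cases h : (T (a ∞) (m + 1)).PosDef
  · obtain ⟨r, hr, h2⟩ := (CFC.exists_pos_algebraMap_le_iff h.1).2 fun x hx =>
      (isStrictlyPositive_iff_posDef.2 h).spectrum_pos hx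
    have tr : ∀ (y : ℤ → ℂ) (s : ℝ) n, T (y + Pi.single 0 (s : ℂ)) n = T y n + algebraMap ℝ _ s := by
      intro y s n
      ext i j
      simp [T, algebraMap_matrix_apply, Pi.single_apply, sub_eq_zero, Fin.ext_iff]
    obtain ⟨z, z1, z2⟩ := ext1 (a := a ∞ + Pi.single 0 ((-r : ℝ) : ℂ)) (m := m) (by
      rw [tr, map_neg, ← sub_eq_add_neg]; exact h2)
    set w := z + Pi.single 0 (r : ℂ) with hw
    have w2 : ∀ l : ℤ, |l| ≤ m → w l = a ∞ l := fun l hl => by
      simp only [hw, Pi.add_apply, z2 l hl, Pi.single_apply]; split_ifs <;> simp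
    have w1 : algebraMap ℝ _ r ≤ T w n := by rw [hw, tr]; exact le_add_of_nonneg_left (z1 n).nonneg
    have w3 : (T w n).PosSemidef := nonneg_iff_posSemidef.1 ((algebraMap_nonneg _ hr.le).trans w1)
    set b : OnePoint ℕ → ℤ → ℂ := fun x l => if |l| ≤ m then a x l else w l
    have b1 : Continuous b := continuous_pi fun l => by
      simp only [b]; split_ifs <;> fun_prop
    have b2 : b ∞ = w := funext fun l => by
      simp only [b]; split_ifs with hl
      · exact (w2 l hl).symm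
      · rfl
    have b3 := (OnePoint.continuous_iff_from_nat b).1 b1
    have b4 : ∀ᶠ x : ℕ in atTop, (T (b x) n).PosSemidef := by
      have := ((cT n).tendsto _).comp b3
      rw [b2] at this
      filter_upwards [Metric.tendsto_nhds.1 this r hr] with x hx
      have hh : (T (b x) n).IsHermitian := by
        ext i j
        simp only [T, conjTranspose_apply, of_apply, b]
        rw [abs_sub_comm ((j : ℕ) : ℤ), ← neg_sub ((i : ℕ) : ℤ)]
        split_ifs with hl
        · exact herm (ha x) (by push_cast; omega)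
        · exact herm w3 (by rw [abs_lt]; omega)
      have h5 := IsSelfAdjoint.le_algebraMap_norm_self (a := T w n - T (b x) n) (w3.1.sub hh)
      rw [Function.comp_apply, dist_comm, dist_eq_norm] at hx
      exact nonneg_iff_posSemidef.1
        ((sub_le_self_iff _).1 (h5.trans ((algebraMap_mono _ hx.le).trans w1)))
    refine ⟨fun x => if (T (b x) n).PosSemidef then b x else e x,
      (OnePoint.continuous_iff_from_nat _).2 ?_, fun x => ?_⟩
    · rw [if_pos (b2 ▸ w3)]
      exact b3.congr' (b4.mono fun x hx => (if_pos hx).symm)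
    · beta_reduce
      split_ifs with hx
      · exact ⟨hx, fun l hl => if_pos hl⟩
      · exact ⟨e1 x, e2 x⟩
  · refine ⟨e, (OnePoint.continuous_iff_from_nat _).2 ?_, fun x => ⟨e1 x, e2 x⟩⟩
    obtain ⟨B, hB⟩ := (isCompact_range ((continuous_apply 0).comp hc).norm).bddAbove
    refine (isCompact_univ_pi fun _ : ℤ => isCompact_closedBall (0 : ℂ) B
      ).tendsto_nhds_of_unique_mapClusterPt (Eventually.of_forall fun x l _ => ?_) fun z _ hz => ?_
    · have := hB ⟨x, rfl⟩
      rw [mem_closedBall_zero_iff]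
      by_cases hl : |l| < n
      · exact (bnd (e1 x) hl).trans (by rw [e2 x 0 (by simp)]; exact this)
      · rw [e3 x l hl, norm_zero]; exact (norm_nonneg _).trans this
    · obtain ⟨φ, hφ, hz⟩ := hz.tendsto_subseq
      have z1 : (T z n).PosSemidef := nonneg_iff_posSemidef.1
        (CStarAlgebra.isClosed_nonneg.mem_of_tendsto (((cT n).tendsto _).comp hz)
          (Eventually.of_forall fun x => (e1 _).nonneg))
      funext l
      by_cases hl : |l| < n
      · refine uniq hmn (ha ∞) h z1 (e1 ∞) (fun l hl => ?_) (e2 ∞) l hl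
        refine tendsto_nhds_unique (tendsto_pi_nhds.1 hz l) ?_
        exact (tendsto_pi_nhds.1 (hc'.comp hφ.tendsto_atTop) l).congr fun x => (e2 _ l hl).symm
      · rw [e3 _ l hl]
        exact tendsto_nhds_unique (tendsto_pi_nhds.1 hz l)
          (tendsto_const_nhds.congr fun x => (e3 _ l hl).symm)

theorem ptc : PTC C(OnePoint ℕ, ℂ) := by
  rintro (_ | m) n hk hn a ⟨Z, hZ⟩
  · omega
  obtain ⟨y, h1, h2⟩ := select (a := fun x l => a l x) (by fun_prop) (show m < n by omega)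
    fun x => by
      convert posSemidef_conjTranspose_mul_self (Z.map fun f => f x) using 1
      ext i j
      simpa [T, mul_apply] using DFunLike.congr_fun (congrFun (congrFun hZ i) j) x
  have h3 : Continuous fun x => CFC.sqrt (T (y x) n) :=
    CFC.continuousOn_sqrt.comp_continuous ((cT n).comp h1) fun x => (h2 x).1.nonneg
  refine ⟨fun l => ⟨fun x => y x l, by fun_prop⟩,
    ⟨fun i j => ⟨fun x => CFC.sqrt (T (y x) n) i j, h3.matrix_elem i j⟩, ?_⟩,
    fun l hl => ContinuousMap.ext fun x => (h2 x).2 l (by simpa using hl)⟩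
  ext i j x
  have h4 := CStarAlgebra.nonneg_iff_eq_sqrt_mul_sqrt.1 (h2 x).1.nonneg
  nth_rewrite 1 [← (CFC.sqrt_nonneg (T (y x) n)).isSelfAdjoint.star_eq] at h4
  simpa [T, mul_apply] using congrFun (congrFun h4 i) j

theorem result : ∃ (A : Type) (_ : CStarAlgebra A), PTC A ∧
    ∃ m : ℕ, 0 < m ∧ ¬ PTC (Matrix (Fin m) (Fin m) A) := by
  refine ⟨C(OnePoint ℕ, ℂ), inferInstance, ptc, 2, two_pos, fun h => ?_⟩
  have t1 : Tendsto (fun n : ℕ => ((1 / ((n : ℝ) + 1) : ℝ) : ℂ)) atTop (𝓝 0) := by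
    exact (Complex.continuous_ofReal.tendsto 0).comp tendsto_one_div_add_atTop_nhds_zero_nat
  have t2 : Tendsto (fun n : ℕ => (-1) ^ n * ((1 / ((n : ℝ) + 1) : ℝ) : ℂ)) atTop (𝓝 0) := by
    rw [tendsto_zero_iff_norm_tendsto_zero] at t1 ⊢
    simpa using t1
  set ε := OnePoint.continuousMapMkNat _ _ t1
  set δ := OnePoint.continuousMapMkNat _ _ t2
  have e1 : ∀ n : ℕ, ε n = ((1 / ((n : ℝ) + 1) : ℝ) : ℂ) := fun _ => rfl
  have e2 : ∀ n : ℕ, δ n = (-1) ^ n * ε n := fun _ => rfl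
  have e3 : ε ∞ = 0 := rfl
  have e4 : δ ∞ = 0 := rfl
  have s1 : star ε = ε := by
    ext x; induction x using OnePoint.rec <;> simp [e1, e3]
  have s2 : star δ = δ := by
    ext x; induction x using OnePoint.rec <;> simp [e1, e2, e4]
  have s3 : δ * δ = ε * ε := by
    ext x; induction x using OnePoint.rec
    · simp [e3, e4]
    · simp only [ContinuousMap.mul_apply, e2]
      rw [mul_mul_mul_comm, ← mul_pow]; simp
  obtain ⟨y, ⟨W, hW⟩, hy⟩ := h 2 3 two_pos (by norm_num) (fun l =>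
    if l = 0 then !![1, 0; 0, ε * ε] else if l = -1 then !![0, ε; δ, 0] else !![0, δ; ε, 0])
    ⟨!![!![1, 0; 0, δ], !![0, ε; 1, 0]; 0, 0], by
      ext i j p q : 4
      fin_cases i <;> fin_cases j <;> fin_cases p <;> fin_cases q <;>
        simp [T, mul_apply, Fin.sum_univ_two, s1, s2, s3]⟩
  have key : ∀ n : ℕ, y (-2) 0 0 n = (-1) ^ n := fun n => by
    set w : Fin 3 → Fin 2 → EuclideanSpace ℂ (Fin 3 × Fin 2) := fun j q =>
      WithLp.toLp 2 fun r => W r.1 j r.2 q n
    have hw : ∀ i p j q, ⟪w i p, w j q⟫_ℂ = y ((i : ℕ) - (j : ℕ)) p q n := fun i p j q => by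
      have := DFunLike.congr_fun (congrFun (congrFun (congrFun (congrFun hW i) j) p) q)
        (n : OnePoint ℕ)
      simp only [T, of_apply, mul_apply, Matrix.sum_apply, conjTranspose_apply, star_apply] at this
      simp [this, w, PiLp.inner_apply, Fintype.sum_prod_type, mul_comm]
    have y0 := hy 0 (by norm_num)
    have y1 := hy 1 (by norm_num)
    have y2 := hy (-1) (by norm_num)
    have hs : (starRingEnd ℂ) (ε n) = ε n := DFunLike.congr_fun s1 (n : OnePoint ℕ)
    have : w 1 1 - ε n • w 0 0 = 0 := by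
      rw [← inner_self_eq_zero (𝕜 := ℂ)]
      simp only [inner_sub_left, inner_sub_right, inner_smul_left, inner_smul_right, hw, hs]
      simp [y0, y1, y2]
    have h5 := hw 1 1 2 0
    rw [sub_eq_zero.1 this, inner_smul_left, hw, hs] at h5
    have h6 : ε n ≠ 0 := by rw [e1, Complex.ofReal_ne_zero]; positivity
    refine mul_left_cancel₀ h6 ?_
    simpa [y2, e2, mul_comm] using h5
  have h7 := (OnePoint.continuous_iff_from_nat _).1 (y (-2) 0 0).continuous
  simp only [key] at h7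
  have a1 := h7.comp (tendsto_id.const_mul_atTop' (r := (2 : ℕ)) two_pos)
  have a2 := h7.comp ((tendsto_add_atTop_nat 1).comp
    (tendsto_id.const_mul_atTop' (r := (2 : ℕ)) two_pos))
  simp only [Function.comp_def, pow_succ, pow_mul, id] at a1 a2
  norm_num at a1 a2
  rw [← a1] at a2
  norm_num at a2

end Pool.Agent.Results.MP_a15892_an.Counter
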