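import Pool.Agent.H99.RPC1

open Matrix Filter Topology Pool.Agent.H99.RPC
open scoped MatrixOrder ComplexOrder Matrix.Norms.L2Operator InnerProductSpace

namespace Pool.Agent.Results.MP_a15892_an.NotStable

/-- positivity in the matrix algebra over `A`: `X = Bᴴ B` -/
def Pos {A : Type} [Ring A] [StarRing A] {n : ℕ} (X : Matrix (Fin n) (Fin n) A) : Prop :=
  ∃ B : Matrix (Fin n) (Fin n) A, X = Bᴴ * B

/-- the Toeplitz matrix `[a (i - j)]` -/
def T {A : Type} (n : ℕ) (a : ℤ → A) : Matrix (Fin n) (Fin n) A :=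
  Matrix.of fun i j => a ((i.val : ℤ) - j.val)

/-- the positive Toeplitz completion property -/
def PTC (A : Type) [Ring A] [StarRing A] : Prop :=
  ∀ k n : ℕ, 0 < k → k < n → ∀ a : ℤ → A, Pos (T k a) →
    ∃ y : ℤ → A, Pos (T n y) ∧ ∀ l : ℤ, |l| ≤ (k : ℤ) - 1 → y l = a l

def upd {A : Type} [Star A] (a : ℤ → A) (k : ℕ) (z : A) : ℤ → A :=
  fun l => if l = k then z else if l = -k then star z else a l

lemma ext_exists {m : ℕ} {a : ℤ → ℂ} (h : (T (m + 1) a).PosSemidef) :
    ∃ z, (T (m + 2) (upd a (m + 1) z)).PosSemidef := by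
  obtain ⟨B, hB⟩ := CStarAlgebra.nonneg_iff_eq_star_mul_self.mp h.nonneg
  set b : Fin (m + 1) → EuclideanSpace ℂ (Fin (m + 1)) :=
    fun i => WithLp.toLp 2 fun r => B r i with hb'
  have hb : ∀ i j, ⟪b i, b j⟫_ℂ = a ((i.val : ℤ) - j.val) := by
    intro i j
    have := congrFun (congrFun hB i) j
    simp only [T, Matrix.of_apply, Matrix.mul_apply, star_apply] at this
    rw [this]; simp [hb', PiLp.inner_apply, mul_comm]
  set f := Fintype.linearCombination ℂ (fun i : Fin m => b i.castSucc) with hf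
  set g := Fintype.linearCombination ℂ (fun i : Fin m => b i.succ) with hg
  have hn : ∀ c, ‖g c‖ = ‖f c‖ := by
    intro c
    rw [@norm_eq_sqrt_re_inner ℂ, @norm_eq_sqrt_re_inner ℂ]
    simp only [hf, hg, Fintype.linearCombination_apply, sum_inner, inner_sum, inner_smul_left,
      inner_smul_right, hb, Fin.val_succ, Fin.val_castSucc, Nat.cast_add, add_sub_add_right_eq_sub]
  have hker : f.ker ≤ g.ker := fun c hc => by
    rw [LinearMap.mem_ker] at hc ⊢
    rw [← norm_eq_zero, hn, hc, norm_zero]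
  set L0 := (f.ker.liftQ g hker) ∘ₗ f.quotKerEquivRange.symm.toLinearMap with hL0
  have hL : ∀ c, L0 ⟨f c, LinearMap.mem_range_self f c⟩ = g c := fun c => by
    simp [hL0, LinearMap.quotKerEquivRange_symm_apply_image]
  let L : f.range →ₗᵢ[ℂ] EuclideanSpace ℂ (Fin (m + 1)) :=
    ⟨L0, by rintro ⟨_, c, rfl⟩; rw [hL, hn]; rfl⟩
  have hU : ∀ i : Fin m, L.extend (b i.castSucc) = b i.succ := fun i => by
    have h1 := L.extend_apply ⟨f (Pi.single i 1), LinearMap.mem_range_self f _⟩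
    have h2 : L ⟨f (Pi.single i 1), LinearMap.mem_range_self f _⟩ = _ := hL _
    rw [h2] at h1
    simpa [hf, hg] using h1
  set v : ℕ → EuclideanSpace ℂ (Fin (m + 1)) := fun i => L.extend^[i] (b 0) with hv
  have v1 : ∀ i, v (i + 1) = L.extend (v i) := fun i => Function.iterate_succ_apply' _ _ _
  have v2 : ∀ i (hi : i < m + 1), v i = b ⟨i, hi⟩ := by
    intro i
    induction i with
    | zero => intro _; rfl
    | succ i ih => intro hi; rw [v1, ih (by omega)]; exact hU ⟨i, by omega⟩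
  have v3 : ∀ i j : ℕ, i < m + 1 → j < m + 1 → ⟪v i, v j⟫_ℂ = a ((i : ℤ) - j) :=
    fun i j hi hj => by rw [v2 i hi, v2 j hj, hb]
  refine ⟨⟪v (m + 1), v 0⟫_ℂ, ?_⟩
  have : T (m + 2) (upd a (m + 1) ⟪v (m + 1), v 0⟫_ℂ) = gram ℂ fun i : Fin (m + 2) => v i := by
    ext ⟨i, hi⟩ ⟨j, hj⟩
    simp only [T, Matrix.of_apply, gram_apply, upd]
    split_ifs with h1 h2
    · obtain rfl : i = m + 1 := by omega
      obtain rfl : j = 0 := by omega
      rfl
    · obtain rfl : j = m + 1 := by omega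
      obtain rfl : i = 0 := by omega
      exact inner_conj_symm _ _
    · by_cases h3 : i < m + 1 ∧ j < m + 1
      · rw [v3 i j h3.1 h3.2]
      · obtain ⟨i, rfl⟩ : ∃ i', i = i' + 1 := ⟨i - 1, by omega⟩
        obtain ⟨j, rfl⟩ : ∃ j', j = j' + 1 := ⟨j - 1, by omega⟩
        rw [v1, v1, LinearIsometry.inner_map_map, v3 i j (by omega) (by omega)]
        congr 1; push_cast; ring
  rw [this]; exact posSemidef_gram ℂ _

lemma mid_posDef {m : ℕ} {a : ℤ → ℂ} {z w : ℂ} (hz : (T (m + 2) (upd a (m + 1) z)).PosSemidef)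
    (hw : (T (m + 2) (upd a (m + 1) w)).PosSemidef) (hne : z ≠ w) :
    (T (m + 2) (upd a (m + 1) ((z + w) / 2))).PosDef := by
  set t := upd a (m + 1) ((z + w) / 2) with ht
  have e : T (m + 2) t = (1 / 2 : ℂ) • (T (m + 2) (upd a (m + 1) z) + T (m + 2) (upd a (m + 1) w)) := by
    ext i j
    simp only [T, ht, upd, Matrix.of_apply, Matrix.smul_apply, Matrix.add_apply, smul_eq_mul]
    split_ifs
    · ring
    · simp; ring
    · ring
  have hp : (T (m + 2) t).PosSemidef := by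
    rw [e]; exact (hz.add hw).smul (by simp)
  have z0 : ∀ v, star v ⬝ᵥ T (m + 2) t *ᵥ v = 0 → v 0 = 0 := by
    intro v hv
    rw [e, smul_mulVec, dotProduct_smul, add_mulVec, dotProduct_add, smul_eq_zero] at hv
    have h1 := (add_eq_zero_iff_of_nonneg (hz.dotProduct_mulVec_nonneg v)
      (hw.dotProduct_mulVec_nonneg v)).1 (hv.resolve_left (by norm_num))
    have h2 := congrFun ((hz.dotProduct_mulVec_zero_iff v).1 h1.1) (Fin.last _)
    have h3 := congrFun ((hw.dotProduct_mulVec_zero_iff v).1 h1.2) (Fin.last _)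
    simp only [mulVec, dotProduct, Fin.sum_univ_succ (n := m + 1), Pi.zero_apply] at h2 h3
    have h4 : ∀ j : Fin (m + 1), T (m + 2) (upd a (m + 1) z) (Fin.last _) j.succ =
        T (m + 2) (upd a (m + 1) w) (Fin.last _) j.succ := fun j => by
      have := j.2
      simp only [T, upd, Matrix.of_apply, Fin.val_last, Fin.val_succ]
      rw [if_neg (by omega), if_neg (by omega), if_neg (by omega), if_neg (by omega)]
    simp only [h4] at h2
    have h5 : (z - w) * v 0 = 0 := by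
      have a1 : T (m + 2) (upd a (m + 1) z) (Fin.last _) 0 = z := by simp [T, upd]
      have a2 : T (m + 2) (upd a (m + 1) w) (Fin.last _) 0 = w := by simp [T, upd]
      rw [a1] at h2; rw [a2] at h3
      linear_combination h2 - h3
    exact (mul_eq_zero.1 h5).resolve_left (sub_ne_zero.2 hne)
  have all : ∀ i (hi : i < m + 2), ∀ v, star v ⬝ᵥ T (m + 2) t *ᵥ v = 0 → v ⟨i, hi⟩ = 0 := by
    intro i
    induction i with
    | zero => exact fun _ => z0
    | succ i ih =>
      intro hi v hv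
      have := ih (by omega) (Fin.snoc (α := fun _ => ℂ) (Fin.tail v) 0) (by
        refine Eq.trans ?_ hv
        simp only [mulVec, dotProduct, Pi.star_apply]
        conv_lhs => simp only [Fin.sum_univ_castSucc (n := m + 1)]
        conv_rhs => simp only [Fin.sum_univ_succ (n := m + 1)]
        simp [z0 v hv, T, Fin.tail])
      rwa [show (⟨i, by omega⟩ : Fin (m + 2)) = Fin.castSucc ⟨i, by omega⟩ from rfl,
        Fin.snoc_castSucc] at this
  refine .of_dotProduct_mulVec_pos hp.1 fun v hv => ?_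
  exact (hp.dotProduct_mulVec_nonneg v).lt_of_ne' fun h => hv (funext fun i => all i.1 i.2 v h)

lemma near_psd {n : ℕ} {S : Matrix (Fin n) (Fin n) ℂ} (hS : S.PosDef) :
    ∀ᶠ R in 𝓝 S, R.IsHermitian → R.PosSemidef := by
  obtain ⟨δ, δ0, hδ⟩ : ∃ δ > 0, ∀ i, δ ≤ hS.1.eigenvalues i := by
    rcases isEmpty_or_nonempty (Fin n) with h | h
    · exact ⟨1, one_pos, fun i => h.elim i⟩
    · obtain ⟨i, hi⟩ := Finite.exists_min hS.1.eigenvalues
      exact ⟨_, hS.eigenvalues_pos i, hi⟩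
  have h1 : (S - (δ : ℂ) • 1).PosSemidef := by
    have : S - (δ : ℂ) • 1 = fn hS.1 (fun x => x - δ) := by rw [← fn_sub, fn_id, fn_const]; rfl
    rw [this]; exact fn_psd _ fun i => sub_nonneg.2 (hδ i)
  filter_upwards [Metric.ball_mem_nhds S δ0] with R hR hH
  rw [mem_ball_iff_norm] at hR
  have h2 : IsSelfAdjoint (R - S) := hH.sub hS.1
  have h3 := (sub_nonneg.2 h2.neg_algebraMap_norm_le_self).posSemidef
  have h4 : (((δ - ‖R - S‖ : ℝ) : ℂ) • (1 : Matrix (Fin n) (Fin n) ℂ)).PosSemidef :=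
    PosSemidef.one.smul (by exact_mod_cast sub_nonneg.2 hR.le)
  convert (h1.add h3).add h4 using 1
  rw [Algebra.algebraMap_eq_smul_one]
  have : ((δ - ‖R - S‖ : ℝ) : ℂ) • (1 : Matrix (Fin n) (Fin n) ℂ) =
      (δ : ℂ) • 1 - ‖R - S‖ • 1 := by
    rw [Complex.ofReal_sub, sub_smul, Complex.coe_smul ‖R - S‖]
  rw [this]; abel

abbrev c := C(OnePoint ℕ, ℂ)

lemma pos_iff {n : ℕ} (X : Matrix (Fin n) (Fin n) c) :
    Pos X ↔ ∀ x, (Matrix.of fun i j => X i j x).PosSemidef := by
  constructor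
  · rintro ⟨B, rfl⟩ x
    convert posSemidef_conjTranspose_mul_self (Matrix.of fun i j => B i j x) using 1
    ext i j; simp [Matrix.mul_apply]
  · intro h
    have h1 : Continuous fun x => Matrix.of fun i j => X i j x :=
      continuous_matrix fun i j => (X i j).continuous
    have h2 := (CFC.continuousOn_sqrt (A := Matrix (Fin n) (Fin n) ℂ)).comp_continuous h1
      fun x => (h x).nonneg
    refine ⟨Matrix.of fun i j => ⟨_, h2.matrix_elem i j⟩, ?_⟩
    ext i j x
    have a1 := CFC.sqrt_mul_sqrt_self _ (h x).nonneg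
    have a2 := (CFC.sqrt_nonneg (Matrix.of fun i j => X i j x)).posSemidef.1
    have a3 := congrFun (congrFun a1 i) j
    rw [Matrix.of_apply] at a3
    rw [← a3]
    simp [Matrix.mul_apply, a2.apply]

lemma T_tendsto {n k : ℕ} (a : ℤ → c) {z : ℕ → ℂ} {w : ℂ} {φ : ℕ → ℕ} (hφ : Tendsto φ atTop atTop)
    (hz : Tendsto z atTop (𝓝 w)) :
    Tendsto (fun s => T n (upd (fun l => a l (φ s : ℕ)) k (z s))) atTop
      (𝓝 (T n (upd (fun l => a l OnePoint.infty) k w))) := by
  refine tendsto_pi_nhds.2 fun i => tendsto_pi_nhds.2 fun j => ?_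
  simp only [T, upd, Matrix.of_apply]
  split_ifs
  · exact hz
  · exact hz.star
  · exact ((OnePoint.continuous_iff_from_nat _).1 (a _).continuous).comp hφ

lemma psd_closed {n : ℕ} {R : ℕ → Matrix (Fin n) (Fin n) ℂ} {S : Matrix (Fin n) (Fin n) ℂ}
    (h : Tendsto R atTop (𝓝 S)) (hR : ∀ s, (R s).PosSemidef) : S.PosSemidef :=
  (CStarAlgebra.isClosed_nonneg.mem_of_tendsto h
    (Eventually.of_forall fun s => (hR s).nonneg) : 0 ≤ S).posSemidef

lemma herm_upd {m : ℕ} {a : ℤ → ℂ} {z : ℂ} (h : (T (m + 2) (upd a (m + 1) z)).IsHermitian)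
    (w : ℂ) : (T (m + 2) (upd a (m + 1) w)).IsHermitian := by
  ext i j
  have := h.apply i j
  simp only [T, upd, Matrix.of_apply, conjTranspose_apply] at this ⊢
  split_ifs at this ⊢ <;> first | omega | simp

lemma bound {m : ℕ} {a : ℤ → ℂ} {z : ℂ} (h : (T (m + 2) (upd a (m + 1) z)).PosSemidef) :
    ‖z‖ ≤ ‖a 0‖ := by
  obtain ⟨B, hB⟩ := CStarAlgebra.nonneg_iff_eq_star_mul_self.mp h.nonneg
  set b : Fin (m + 2) → EuclideanSpace ℂ (Fin (m + 2)) :=
    fun i => WithLp.toLp 2 fun r => B r i with hb'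
  have hb : ∀ i j, ⟪b i, b j⟫_ℂ = upd a (m + 1) z ((i.val : ℤ) - j.val) := by
    intro i j
    have := congrFun (congrFun hB i) j
    simp only [T, Matrix.of_apply, Matrix.mul_apply, star_apply] at this
    rw [this]; simp [hb', PiLp.inner_apply, mul_comm]
  have h1 : ∀ i, ‖b i‖ ^ 2 = ‖a 0‖ := fun i => by
    have := congrArg norm (hb i i)
    rw [inner_self_eq_norm_sq_to_K, sub_self, upd, if_neg (by omega), if_neg (by omega)] at this
    simpa using this
  have h2 := norm_inner_le_norm (𝕜 := ℂ) (b (Fin.last _)) (b 0)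
  rw [hb] at h2
  simp only [upd, Fin.val_last, Fin.val_zero, Nat.cast_zero, sub_zero, if_true] at h2
  nlinarith [h1 0, h1 (Fin.last _), sq_nonneg (‖b 0‖ - ‖b (Fin.last _)‖)]

lemma one_step {m : ℕ} {a : ℤ → c} (h : Pos (T (m + 1) a)) :
    ∃ z, Pos (T (m + 2) (upd a (m + 1) z)) := by
  rw [pos_iff] at h
  have hex := fun x => ext_exists (a := fun l => a l x) (h x)
  choose z hz using hex
  suffices hs : ∃ (y : ℕ → ℂ) (w : ℂ), Tendsto y atTop (𝓝 w) ∧
      (∀ s : ℕ, (T (m + 2) (upd (fun l => a l (s : ℕ)) (m + 1) (y s))).PosSemidef) ∧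
      (T (m + 2) (upd (fun l => a l OnePoint.infty) (m + 1) w)).PosSemidef by
    obtain ⟨y, w, h1, h2, h3⟩ := hs
    refine ⟨OnePoint.continuousMapMkNat y w h1, (pos_iff _).2 fun x => ?_⟩
    have e : (Matrix.of fun i j => T (m + 2) (upd a (m + 1) (OnePoint.continuousMapMkNat y w h1))
        i j x) = T (m + 2) (upd (fun l => a l x) (m + 1) (OnePoint.continuousMapMkNat y w h1 x)) := by
      ext i j
      simp only [T, upd, Matrix.of_apply]
      split_ifs <;> simp
    rw [e]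
    induction x using OnePoint.rec
    · exact h3
    · exact h2 _
  by_cases hu : ∀ w, (T (m + 2) (upd (fun l => a l OnePoint.infty) (m + 1) w)).PosSemidef →
      w = z OnePoint.infty
  · refine ⟨fun s => z s, _, ?_, fun s => hz s, hz _⟩
    refine tendsto_of_subseq_tendsto fun φ hφ => ?_
    obtain ⟨w, -, ψ, hψ, hw⟩ := tendsto_subseq_of_bounded
      (Metric.isBounded_closedBall (x := (0 : ℂ)) (r := ‖a 0‖)) (x := fun s => z (φ s : ℕ))
      fun s => mem_closedBall_zero_iff.2 ((bound (hz _)).trans ((a 0).norm_coe_le_norm _))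
    refine ⟨ψ, ?_⟩
    rw [← hu w (psd_closed (T_tendsto a (hφ.comp hψ.tendsto_atTop) hw) fun s => hz _)]
    exact hw
  · push Not at hu
    obtain ⟨w, h1, h2⟩ := hu
    have h3 := mid_posDef h1 (hz _) h2
    set u := (w + z OnePoint.infty) / 2
    have h4 := (T_tendsto (n := m + 2) (k := m + 1) a tendsto_id
      (tendsto_const_nhds (x := u))).eventually (near_psd h3)
    classical
    refine ⟨fun s => if (T (m + 2) (upd (fun l => a l (s : ℕ)) (m + 1) u)).PosSemidef then u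
      else z s, u, tendsto_const_nhds.congr' ?_, fun s => ?_, h3.posSemidef⟩
    · filter_upwards [h4] with s hs
      exact (if_pos (hs (herm_upd (hz _).1 u))).symm
    · dsimp only
      split_ifs with h5
      · exact h5
      · exact hz _

lemma ptc_c : PTC c := by
  intro k n hk hkn a ha
  obtain ⟨m, rfl⟩ : ∃ m, k = m + 1 := ⟨k - 1, by omega⟩
  obtain ⟨d, rfl⟩ := Nat.exists_eq_add_of_le hkn.le
  clear hkn
  induction d with
  | zero => exact ⟨a, ha, fun _ _ => rfl⟩
  | succ d ih =>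
    obtain ⟨y, h1, h2⟩ := ih
    rw [show m + 1 + d = m + d + 1 by ring] at h1
    obtain ⟨z, hz⟩ := one_step h1
    rw [show m + 1 + (d + 1) = m + d + 2 by ring]
    refine ⟨_, hz, fun l hl => ?_⟩
    rw [abs_le] at hl
    rw [upd, if_neg (by omega), if_neg (by omega), h2 l (abs_le.2 hl)]

lemma tz : Tendsto (fun n : ℕ => (1 / ((n : ℂ) + 1))) atTop (𝓝 0) :=
  tendsto_one_div_add_atTop_nhds_zero_nat

noncomputable def ε : c := OnePoint.continuousMapMkNat _ 0 tz

noncomputable def η : c :=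
  OnePoint.continuousMapMkNat (fun n => (-1) ^ n * (1 / ((n : ℂ) + 1))) 0 (by
    rw [tendsto_zero_iff_norm_tendsto_zero]
    simpa using tendsto_zero_iff_norm_tendsto_zero.1 tz)

lemma ε1 : ε OnePoint.infty = 0 := rfl
lemma ε2 (n : ℕ) : ε n = 1 / ((n : ℂ) + 1) := rfl
lemma η1 : η OnePoint.infty = 0 := rfl
lemma η2 (n : ℕ) : η n = (-1) ^ n * (1 / ((n : ℂ) + 1)) := rfl

lemma sε : star ε = ε := by
  ext x; induction x using OnePoint.rec <;> simp [ε1, ε2]

lemma sη : star η = η := by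
  ext x; induction x using OnePoint.rec <;> simp [η1, η2]

lemma ηη : η * η = ε * ε := by
  ext x
  induction x using OnePoint.rec
  · simp [ε1, η1]
  · simp only [ε2, η2, ContinuousMap.mul_apply]
    rw [mul_mul_mul_comm, ← mul_pow]; simp

noncomputable def aa : ℤ → Matrix (Fin 2) (Fin 2) c := fun l =>
  if l = 0 then !![1, 0; 0, ε * ε] else if l = 1 then !![0, η; ε, 0] else !![0, ε; η, 0]

theorem result : PTC C(OnePoint ℕ, ℂ) ∧ ¬ PTC (Matrix (Fin 2) (Fin 2) C(OnePoint ℕ, ℂ)) := by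
  refine ⟨ptc_c, fun h => ?_⟩
  obtain ⟨y, ⟨B, hB⟩, hy⟩ := h 2 3 (by norm_num) (by norm_num) aa
    ⟨!![!![1, 0; 0, η], !![0, ε; 1, 0]; 0, 0], by
      ext i j p q : 2
      fin_cases i <;> fin_cases j <;> fin_cases p <;> fin_cases q <;>
        simp [T, aa, Matrix.mul_apply, Fin.sum_univ_two, star_apply, sε, sη, ηη]⟩
  have key : ∀ n : ℕ, y 2 0 0 (n : ℕ) = (-1) ^ n := by
    intro n
    set b : Fin 3 → Fin 2 → EuclideanSpace ℂ (Fin 3 × Fin 2) :=
      fun i p => WithLp.toLp 2 fun t => B t.1 i t.2 p n with hb'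
    have hb : ∀ i j p q, ⟪b i p, b j q⟫_ℂ = y ((i.val : ℤ) - j.val) p q n := by
      intro i j p q
      have := congrFun (congrFun hB i) j
      simp only [T, Matrix.of_apply] at this
      rw [this]
      simp [hb', PiLp.inner_apply, mul_comm, Matrix.mul_apply, Matrix.sum_apply, star_apply,
        Fintype.sum_prod_type]
    set e : ℂ := 1 / ((n : ℂ) + 1) with he
    have e0 : e ≠ 0 := one_div_ne_zero (Nat.cast_add_one_ne_zero n)
    have es : (starRingEnd ℂ) e = e := by simp [he]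
    have a1 : ⟪b 0 0, b 0 0⟫_ℂ = 1 := by rw [hb, hy _ (by norm_num)]; simp [aa]
    have a2 : ⟪b 1 1, b 1 1⟫_ℂ = e * e := by rw [hb, hy _ (by norm_num)]; simp [aa, ε2, η2, he]
    have a3 : ⟪b 1 1, b 0 0⟫_ℂ = e := by rw [hb, hy _ (by norm_num)]; simp [aa, ε2, η2, he]
    have a4 : ⟪b 0 0, b 1 1⟫_ℂ = e := by rw [hb, hy _ (by norm_num)]; simp [aa, ε2, η2, he]
    have a5 : ⟪b 2 0, b 1 1⟫_ℂ = (-1) ^ n * e := by
      rw [hb, hy _ (by norm_num)]; simp [aa, ε2, η2, he]
    have a6 : b 1 1 = e • b 0 0 := by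
      rw [← sub_eq_zero, ← inner_self_eq_zero (𝕜 := ℂ)]
      simp only [inner_sub_left, inner_sub_right, inner_smul_left, inner_smul_right, a1, a2, a3,
        a4, es]
      ring
    rw [a6, inner_smul_right, hb, mul_comm] at a5
    exact mul_right_cancel₀ e0 a5
  have h1 := (OnePoint.continuous_iff_from_nat _).1 (y 2 0 0).continuous
  simp only [key] at h1
  have h2 := h1.comp (tendsto_add_atTop_nat 1)
  have h3 := (h1.sub h2).norm
  have h4 : ∀ n : ℕ, ‖(-1 : ℂ) ^ n - ((fun x : ℕ => (-1 : ℂ) ^ x) ∘ fun a => a + 1) n‖ = 2 := by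
    intro n
    simp only [Function.comp, pow_succ]
    rw [show (-1 : ℂ) ^ n - (-1) ^ n * -1 = 2 * (-1) ^ n by ring]; simp
  simp only [h4, sub_self, norm_zero] at h3
  exact absurd (tendsto_nhds_unique tendsto_const_nhds h3) (by norm_num)

end Pool.Agent.Results.MP_a15892_an.NotStable
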